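import Mathlib

set_option autoImplicit false

namespace Pool.Agent.H6.HF

/-- The orbit relation of the action `φ` of the group `Γ` on the measurable space `X` is hyperfinite: it is the
union of an increasing sequence of measurable equivalence relations with finite classes. -/
def HypOrb {Γ X : Type} [Group Γ] [MeasurableSpace X] (φ : Γ →* Equiv.Perm X) : Prop :=
  ∃ F : ℕ → X → X → Prop,
    (∀ n, MeasurableSet {p : X × X | F n p.1 p.2}) ∧
    (∀ n, Equivalence (F n)) ∧
    (∀ n (x : X), Set.Finite {y : X | F n x y}) ∧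
    (∀ n (x y : X), F n x y → F (n + 1) x y) ∧
    (∀ x y : X, (∃ g, φ g x = y) ↔ ∃ n, F n x y)

/-- All Borel actions of `Γ` on standard Borel spaces have hyperfinite orbit relations. -/
def AllHyp (Γ : Type) [Group Γ] : Prop :=
  ∀ (X : Type) [MeasurableSpace X] [StandardBorelSpace X] (φ : Γ →* Equiv.Perm X),
    (∀ g, Measurable (φ g)) → HypOrb φ

/-- The left shift action of `Γ` on `{0,1}^Γ`: `(g · y) k = y (g⁻¹ k)`. -/
def shiftAct (Γ : Type) [Group Γ] : Γ →* Equiv.Perm (Γ → Bool) where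
  toFun g :=
    { toFun := fun y k => y (g⁻¹ * k)
      invFun := fun y k => y (g * k)
      left_inv := fun y => by funext k; simp
      right_inv := fun y => by funext k; simp }
  map_one' := by ext y k; simp
  map_mul' g h := by ext y k; simp [mul_assoc]

theorem shiftAct_apply {Γ : Type} [Group Γ] (g k : Γ) (y : Γ → Bool) :
    shiftAct Γ g y k = y (g⁻¹ * k) := rfl

theorem measurable_shiftAct {Γ : Type} [Group Γ] (g : Γ) : Measurable (shiftAct Γ g) := by
  refine measurable_pi_iff.mpr fun k => ?_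
  exact measurable_pi_apply (g⁻¹ * k)

theorem HypOrb.pullback {Γ Δ X Y : Type} [Group Γ] [Group Δ] [MeasurableSpace X] [MeasurableSpace Y]
    {φ : Γ →* Equiv.Perm X} {ψ : Δ →* Equiv.Perm Y} (h : HypOrb ψ) (Θ : X → Y) (hm : Measurable Θ)
    (hi : Function.Injective Θ)
    (ho : ∀ x x', (∃ g, φ g x = x') ↔ ∃ g, ψ g (Θ x) = Θ x') : HypOrb φ := by
  obtain ⟨F, hF1, hF2, hF3, hF4, hF5⟩ := h
  refine ⟨fun n x x' => F n (Θ x) (Θ x'), ?_, ?_, ?_, ?_, ?_⟩
  · intro n
    have : Measurable (fun p : X × X => (Θ p.1, Θ p.2)) :=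
      (hm.comp measurable_fst).prodMk (hm.comp measurable_snd)
    exact this (hF1 n)
  · intro n
    exact ⟨fun x => (hF2 n).refl _, fun h => (hF2 n).symm h, fun h1 h2 => (hF2 n).trans h1 h2⟩
  · intro n x
    have := (hF3 n (Θ x)).preimage hi.injOn
    exact this
  · intro n x y hxy
    exact hF4 n _ _ hxy
  · intro x y
    rw [ho x y, hF5]

theorem mono_of_step {X : Type} {F : ℕ → X → X → Prop} (h : ∀ n (x y : X), F n x y → F (n + 1) x y)
    {n m : ℕ} (hnm : n ≤ m) {x y : X} (hx : F n x y) : F m x y := by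
  induction m, hnm using Nat.le_induction with
  | base => exact hx
  | succ k _ ih => exact h k x y ih

theorem HypOrb.of_normal {Γ X : Type} [Group Γ] [MeasurableSpace X] (φ : Γ →* Equiv.Perm X)
    (hφ : ∀ g, Measurable (φ g)) (M : Subgroup Γ) [M.Normal] [M.FiniteIndex]
    (h : HypOrb (φ.comp M.subtype)) : HypOrb φ := by
  classical
  obtain ⟨F, hF1, hF2, hF3, hF4, hF5⟩ := h
  let r : Γ ⧸ M → Γ := Quotient.out
  have hr : ∀ q : Γ ⧸ M, ((r q : Γ) : Γ ⧸ M) = q := fun q => Quotient.out_eq' q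
  have : Fintype (Γ ⧸ M) := Subgroup.fintypeQuotientOfFiniteIndex
  refine ⟨fun n x y => ∃ π : Equiv.Perm (Γ ⧸ M), ∀ i, F n (φ (r i) x) (φ (r (π i)) y), ?_, ?_, ?_, ?_, ?_⟩
  · intro n
    have : {p : X × X | ∃ π : Equiv.Perm (Γ ⧸ M), ∀ i, F n (φ (r i) p.1) (φ (r (π i)) p.2)}
        = ⋃ π : Equiv.Perm (Γ ⧸ M), ⋂ i : Γ ⧸ M,
          (fun p : X × X => (φ (r i) p.1, φ (r (π i)) p.2)) ⁻¹' {p : X × X | F n p.1 p.2} := by
      ext p; simp
    rw [this]
    refine MeasurableSet.iUnion fun π => MeasurableSet.iInter fun i => ?_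
    have hm : Measurable (fun p : X × X => (φ (r i) p.1, φ (r (π i)) p.2)) :=
      ((hφ _).comp measurable_fst).prodMk ((hφ _).comp measurable_snd)
    exact hm (hF1 n)
  · intro n
    refine ⟨fun x => ⟨1, fun i => (hF2 n).refl _⟩, ?_, ?_⟩
    · rintro x y ⟨π, hπ⟩
      refine ⟨π.symm, fun i => ?_⟩
      have := hπ (π.symm i)
      simp only [Equiv.apply_symm_apply] at this
      exact (hF2 n).symm this
    · rintro x y z ⟨π, hπ⟩ ⟨ρ, hρ⟩
      refine ⟨ρ * π, fun i => ?_⟩
      exact (hF2 n).trans (hπ i) (hρ (π i))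
  · intro n x
    have : {y : X | ∃ π : Equiv.Perm (Γ ⧸ M), ∀ i, F n (φ (r i) x) (φ (r (π i)) y)}
        ⊆ ⋃ π : Equiv.Perm (Γ ⧸ M),
          (φ (r (π (1 : Γ ⧸ M)))) ⁻¹' {y | F n (φ (r (1 : Γ ⧸ M)) x) y} := by
      rintro y ⟨π, hπ⟩
      simp only [Set.mem_iUnion]
      exact ⟨π, hπ 1⟩
    refine Set.Finite.subset (Set.finite_iUnion fun π => ?_) this
    exact (hF3 n _).preimage (Equiv.injective _).injOn
  · rintro n x y ⟨π, hπ⟩
    exact ⟨π, fun i => hF4 n _ _ (hπ i)⟩
  · intro x y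
    constructor
    · rintro ⟨g, rfl⟩
      let π : Equiv.Perm (Γ ⧸ M) := Equiv.mulRight ((g : Γ ⧸ M))⁻¹
      have key : ∀ i : Γ ⧸ M, ∃ n, F n (φ (r i) x) (φ (r (π i)) (φ g x)) := by
        intro i
        rw [← hF5]
        have hmem : r (π i) * g * (r i)⁻¹ ∈ M := by
          rw [← QuotientGroup.eq_one_iff]
          rw [QuotientGroup.mk_mul, QuotientGroup.mk_mul, QuotientGroup.mk_inv, hr, hr]
          simp [π]
        refine ⟨⟨_, hmem⟩, ?_⟩
        simp only [MonoidHom.comp_apply, Subgroup.coe_subtype]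
        rw [← Equiv.Perm.mul_apply, ← Equiv.Perm.mul_apply, ← map_mul, ← map_mul]
        congr 2
        group
      choose n hn using key
      refine ⟨Finset.univ.sup n, π, fun i => ?_⟩
      exact mono_of_step hF4 (Finset.le_sup (Finset.mem_univ i)) (hn i)
    · rintro ⟨n, π, hπ⟩
      have := (hF5 _ _).mpr ⟨n, hπ 1⟩
      obtain ⟨m, hm⟩ := this
      simp only [MonoidHom.comp_apply, Subgroup.coe_subtype] at hm
      refine ⟨(r (π 1))⁻¹ * ((m : Γ) * r 1), ?_⟩
      rw [map_mul, Equiv.Perm.mul_apply, map_mul, Equiv.Perm.mul_apply, hm, map_inv]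
      simp

end Pool.Agent.H6.HF
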