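import Pool.Agent.H6.HF.Basic

set_option autoImplicit false

namespace Pool.Agent.H6.HF

theorem exists_rigid (H : Type) [Group H] [Infinite H] :
    ∃ (p q : H) (s : ℕ → H), Function.Injective s ∧ (∀ n, s n ≠ 1 ∧ s n ≠ p ∧ s n ≠ q) ∧
      ∀ g : H, (g = 1 ∨ g = p ∨ g = q ∨ ∃ n, g = s n) →
        (g * p = 1 ∨ g * p = p ∨ g * p = q ∨ ∃ n, g * p = s n) →
        (g * q = 1 ∨ g * q = p ∨ g * q = q ∨ ∃ n, g * q = s n) → g = 1 := by
  classical
  obtain ⟨p, hp⟩ := Infinite.exists_notMem_finset ({1} : Finset H)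
  obtain ⟨q, hq⟩ := Infinite.exists_notMem_finset ({1, p, p⁻¹} : Finset H)
  simp only [Finset.mem_singleton] at hp
  simp only [Finset.mem_insert, Finset.mem_singleton, not_or] at hq
  obtain ⟨hq1, hqp, hqi⟩ := hq
  have hex : ∀ S : Finset H, (∀ x ∈ S, (x ≠ 1 ∧ x ≠ p ∧ x ≠ q ∧ x * p ≠ 1 ∧ x * p ≠ p ∧ x * p ≠ q ∧
        x ≠ p * q ∧ x ≠ q * p)) →
      ∃ y, (y ≠ 1 ∧ y ≠ p ∧ y ≠ q ∧ y * p ≠ 1 ∧ y * p ≠ p ∧ y * p ≠ q ∧ y ≠ p * q ∧ y ≠ q * p) ∧
        ∀ x ∈ S, (y ≠ x ∧ y * p ≠ x ∧ x * p ≠ y) := by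
    intro S _
    obtain ⟨y, hy⟩ := Infinite.exists_notMem_finset
      (({1, p, q, p⁻¹, q * p⁻¹, p * q, q * p} : Finset H) ∪ S ∪ S.image (fun x => x * p⁻¹)
        ∪ S.image (fun x => x * p))
    simp only [Finset.mem_union, Finset.mem_insert, Finset.mem_singleton, Finset.mem_image, not_or,
      not_exists, not_and] at hy
    obtain ⟨⟨⟨⟨h1, h2, h3, h4, h5, h6, h7⟩, h8⟩, h9⟩, h10⟩ := hy
    refine ⟨y, ⟨h1, h2, h3, ?_, ?_, ?_, h6, h7⟩, fun x hx => ⟨?_, ?_, ?_⟩⟩
    · intro h; exact h4 (eq_inv_of_mul_eq_one_left h)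
    · intro h; exact h1 (by simpa using h)
    · intro h; exact h5 (by rw [← h]; group)
    · rintro rfl; exact h8 hx
    · intro h; exact h9 x hx (by rw [← h]; group)
    · intro h; exact h10 x hx h
  obtain ⟨s, hs1, hs2⟩ := exists_seq_of_forall_finset_exists
    (fun y : H => y ≠ 1 ∧ y ≠ p ∧ y ≠ q ∧ y * p ≠ 1 ∧ y * p ≠ p ∧ y * p ≠ q ∧ y ≠ p * q ∧ y ≠ q * p)
    (fun x y => y ≠ x ∧ y * p ≠ x ∧ x * p ≠ y) hex
  refine ⟨p, q, s, ?_, fun n => ⟨(hs1 n).1, (hs1 n).2.1, (hs1 n).2.2.1⟩, ?_⟩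
  · intro m n hmn
    rcases lt_trichotomy m n with h | h | h
    · exact absurd hmn.symm (hs2 m n h).1
    · exact h
    · exact absurd hmn (hs2 n m h).1
  · rintro g (rfl | rfl | rfl | ⟨n, rfl⟩) h1 h2
    · rfl
    · exfalso
      rcases h2 with h | h | h | ⟨n, h⟩
      · exact hqi (eq_inv_of_mul_eq_one_right h)
      · exact hq1 (by simpa using h)
      · exact hp (by simpa using h)
      · exact (hs1 n).2.2.2.2.2.2.1 h.symm
    · exfalso
      rcases h1 with h | h | h | ⟨n, h⟩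
      · exact hqi (eq_inv_of_mul_eq_one_left h)
      · exact hq1 (by simpa using h)
      · exact hp (by simpa using h)
      · exact (hs1 n).2.2.2.2.2.2.2 h.symm
    · exfalso
      rcases h1 with h | h | h | ⟨m, h⟩
      · exact (hs1 n).2.2.2.1 h
      · exact (hs1 n).2.2.2.2.1 h
      · exact (hs1 n).2.2.2.2.2.1 h
      · rcases lt_trichotomy m n with h' | h' | h'
        · exact (hs2 m n h').2.1 h
        · subst h'; exact hp (by simpa using h)
        · exact (hs2 n m h').2.2 h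

theorem HypOrb.of_shift {M H G X : Type} [Group M] [Group H] [Infinite H] [Group G]
    [MeasurableSpace X] [StandardBorelSpace X] (φ : M →* Equiv.Perm X)
    (hφ : ∀ g, Measurable (φ g)) (j : M × H →* G) (hj : Function.Injective j)
    (h : HypOrb (shiftAct G)) : HypOrb φ := by
  classical
  obtain ⟨p, q, s, hsi, hsn, hrig⟩ := exists_rigid H
  obtain ⟨c, hcm, hci⟩ := MeasurableSpace.measurable_injection_nat_bool_of_countablySeparated X
  -- the set of the coded points
  let A : X → M → H → Prop := fun x m u =>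
    u = 1 ∨ u = p ∨ u = q ∨ ∃ n, u = s n ∧ c (φ m⁻¹ x) n = true
  let Θ : X → G → Bool := fun x k => decide (∃ m u, k = j (m, u) ∧ A x m u)
  have hΘ : ∀ x m u, (Θ x (j (m, u)) = true ↔ A x m u) := by
    intro x m u
    simp only [Θ, decide_eq_true_eq]
    constructor
    · rintro ⟨m', u', he, ha⟩
      have := hj he
      rw [Prod.mk.injEq] at this
      obtain ⟨rfl, rfl⟩ := this
      exact ha
    · intro ha
      exact ⟨m, u, rfl, ha⟩
  have hAQ : ∀ x m u, A x m u → (u = 1 ∨ u = p ∨ u = q ∨ ∃ n, u = s n) := by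
    rintro x m u (h | h | h | ⟨n, h, _⟩)
    · exact Or.inl h
    · exact Or.inr (Or.inl h)
    · exact Or.inr (Or.inr (Or.inl h))
    · exact Or.inr (Or.inr (Or.inr ⟨n, h⟩))
  have hAs : ∀ x m n, (A x m (s n) ↔ c (φ m⁻¹ x) n = true) := by
    intro x m n
    constructor
    · rintro (h | h | h | ⟨k, h, h'⟩)
      · exact absurd h (hsn n).1
      · exact absurd h (hsn n).2.1
      · exact absurd h (hsn n).2.2
      · rw [hsi h]; exact h'
    · intro h
      exact Or.inr (Or.inr (Or.inr ⟨n, rfl, h⟩))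
  have hΘm : Measurable Θ := by
    refine measurable_pi_iff.mpr fun k => measurable_to_bool ?_
    by_cases hk : ∃ m u, k = j (m, u)
    · obtain ⟨m, u, rfl⟩ := hk
      have : (fun x => Θ x (j (m, u))) ⁻¹' {true} = {x | A x m u} := by
        ext x
        simp only [Set.mem_preimage, Set.mem_singleton_iff, Set.mem_setOf_eq]
        exact hΘ x m u
      rw [this]
      have h2 : {x | A x m u} = {x : X | u = 1 ∨ u = p ∨ u = q} ∪
          ⋃ n, ({x : X | u = s n} ∩ (fun x => c (φ m⁻¹ x) n) ⁻¹' {true}) := by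
        ext x
        simp only [A, Set.mem_union, Set.mem_setOf_eq, Set.mem_iUnion, Set.mem_inter_iff,
          Set.mem_preimage, Set.mem_singleton_iff]
        tauto
      rw [h2]
      refine (MeasurableSet.const _).union (MeasurableSet.iUnion fun n => ?_)
      refine (MeasurableSet.const _).inter ?_
      have hm : Measurable (fun x => c (φ m⁻¹ x) n) :=
        (measurable_pi_apply n).comp (hcm.comp (hφ _))
      exact hm (measurableSet_singleton true)
    · have : (fun x => Θ x k) ⁻¹' {true} = ∅ := by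
        ext x
        simp only [Set.mem_preimage, Set.mem_singleton_iff, Set.mem_empty_iff_false, iff_false, Θ,
          decide_eq_true_eq]
        rintro ⟨m, u, he, _⟩
        exact hk ⟨m, u, he⟩
      rw [this]
      exact MeasurableSet.empty
  have hΘi : Function.Injective Θ := by
    intro x x' hxx
    apply hci
    funext n
    have h1 := hAs x 1 n
    have h2 := hAs x' 1 n
    have h3 := hΘ x 1 (s n)
    have h4 := hΘ x' 1 (s n)
    rw [hxx] at h3
    simp only [inv_one, map_one, Equiv.Perm.one_apply] at h1 h2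
    rw [Bool.eq_iff_iff, ← h1, ← h2, ← h3, ← h4]
  refine h.pullback Θ hΘm hΘi ?_
  intro x x'
  constructor
  · rintro ⟨m0, rfl⟩
    refine ⟨j (m0, 1), ?_⟩
    funext k
    rw [shiftAct_apply, Bool.eq_iff_iff]
    by_cases hk : ∃ m u, k = j (m, u)
    · obtain ⟨m, u, rfl⟩ := hk
      have : (j (m0, 1))⁻¹ * j (m, u) = j (m0⁻¹ * m, u) := by
        rw [← map_inv, ← map_mul]; simp
      rw [this, hΘ, hΘ]
      simp only [A]
      have h2 : φ (m0⁻¹ * m)⁻¹ x = φ m⁻¹ (φ m0 x) := by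
        rw [← Equiv.Perm.mul_apply, ← map_mul]; simp
      rw [h2]
    · simp only [Θ, decide_eq_true_eq]
      constructor
      · rintro ⟨m, u, he, _⟩
        exact absurd ⟨m0 * m, u, by rw [inv_mul_eq_iff_eq_mul] at he; rw [he, ← map_mul]; simp⟩ hk
      · rintro ⟨m, u, he, _⟩
        exact absurd ⟨m, u, he⟩ hk
  · rintro ⟨g, hg⟩
    have hk : ∀ k, Θ x (g⁻¹ * k) = Θ x' k := by
      intro k
      rw [← hg, shiftAct_apply]
    -- `g` is in the range
    have h1 : Θ x' g = true := by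
      rw [← hk g, inv_mul_cancel, ← map_one j, ← Prod.mk_one_one, hΘ]
      exact Or.inl rfl
    have h2 : ∃ m0 u0, g = j (m0, u0) := by
      simp only [Θ, decide_eq_true_eq] at h1
      obtain ⟨m, u, he, _⟩ := h1
      exact ⟨m, u, he⟩
    obtain ⟨m0, u0, rfl⟩ := h2
    have hpat : ∀ t : H, A x 1 t → A x' m0 (u0 * t) := by
      intro t ht
      rw [← hΘ, ← hk, ← map_inv, ← map_mul]
      have : ((m0, u0) : M × H)⁻¹ * (m0, u0 * t) = (1, t) := by
        ext <;> simp
      rw [this, hΘ]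
      exact ht
    have hu0 : u0 = 1 := by
      have e1 := hAQ _ _ _ (hpat 1 (Or.inl rfl))
      rw [mul_one] at e1
      exact hrig u0 e1 (hAQ _ _ _ (hpat p (Or.inr (Or.inl rfl))))
        (hAQ _ _ _ (hpat q (Or.inr (Or.inr (Or.inl rfl)))))
    subst hu0
    refine ⟨m0, ?_⟩
    apply hci
    funext n
    have h3 := hk (j (1, s n))
    rw [← map_inv, ← map_mul] at h3
    have : ((m0, 1) : M × H)⁻¹ * (1, s n) = (m0⁻¹, s n) := by
      ext <;> simp
    rw [this, Bool.eq_iff_iff, hΘ, hΘ, hAs, hAs] at h3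
    rw [Bool.eq_iff_iff]
    simpa using h3

end Pool.Agent.H6.HF
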