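import Pool.Agent.H6.HF.VEmb

set_option autoImplicit false

namespace Pool.Agent.H6.HF

open Subgroup

abbrev PE : Type := Equiv.Perm (ℕ → Bool)

def tl (x : ℕ → Bool) : ℕ → Bool := fun m => x (m + 1)

def cs (i : Bool) (x : ℕ → Bool) : ℕ → Bool
  | 0 => i
  | (m + 1) => x m

@[simp] theorem cs_zero (i : Bool) (x : ℕ → Bool) : cs i x 0 = i := rfl
@[simp] theorem cs_succ (i : Bool) (x : ℕ → Bool) (m : ℕ) : cs i x (m + 1) = x m := rfl
@[simp] theorem tl_cs (i : Bool) (x : ℕ → Bool) : tl (cs i x) = x := rfl

theorem ext_tl {x y : ℕ → Bool} (h0 : x 0 = y 0) (h : tl x = tl y) : x = y := by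
  funext n
  cases n with
  | zero => exact h0
  | succ m => exact congrFun h m

/-- act by `u` on sequences starting with `false`, by `v` on those starting with `true` -/
def prf (u v : PE) (x : ℕ → Bool) : ℕ → Bool := cs (x 0) (if x 0 = true then v (tl x) else u (tl x))

theorem prf_inv (u v : PE) (x : ℕ → Bool) : prf u⁻¹ v⁻¹ (prf u v x) = x := by
  apply ext_tl
  · simp [prf]
  · simp only [prf, cs_zero, tl_cs]
    split_ifs <;> simp

def pr (u v : PE) : PE where
  toFun := prf u v
  invFun := prf u⁻¹ v⁻¹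
  left_inv := prf_inv u v
  right_inv := by
    intro x
    have := prf_inv u⁻¹ v⁻¹ x
    simpa using this

theorem pr_apply (u v : PE) (x : ℕ → Bool) : pr u v x = prf u v x := rfl

theorem pr_zero (u v : PE) (x : ℕ → Bool) : pr u v x 0 = x 0 := rfl

theorem pr_tl (u v : PE) (x : ℕ → Bool) :
    tl (pr u v x) = if x 0 = true then v (tl x) else u (tl x) := rfl

theorem pr_mul (u v u' v' : PE) : pr u v * pr u' v' = pr (u * u') (v * v') := by
  apply Equiv.ext
  intro x
  rw [Equiv.Perm.mul_apply]
  apply ext_tl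
  · simp [pr_zero]
  · simp only [pr_tl, pr_zero, Equiv.Perm.mul_apply]
    split_ifs <;> rfl

theorem pr_one : pr 1 1 = 1 := by
  apply Equiv.ext
  intro x
  apply ext_tl
  · simp [pr_zero]
  · simp [pr_tl]

theorem pr_inv (u v : PE) : (pr u v)⁻¹ = pr u⁻¹ v⁻¹ := by
  rw [inv_eq_iff_mul_eq_one, pr_mul]
  simp [pr_one]

theorem pr_injective {u v u' v' : PE} (h : pr u v = pr u' v') : u = u' ∧ v = v' := by
  constructor
  · apply Equiv.ext
    intro x
    have := congrArg tl (congrArg (fun g : PE => g (cs false x)) h)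
    simpa [pr_tl] using this
  · apply Equiv.ext
    intro x
    have := congrArg tl (congrArg (fun g : PE => g (cs true x)) h)
    simpa [pr_tl] using this

theorem eq_pr (g u v : PE) (h : ∀ x : ℕ → Bool, g x 0 = x 0 ∧ (x 0 = false → tl (g x) = u (tl x)) ∧
    (x 0 = true → tl (g x) = v (tl x))) : g = pr u v := by
  apply Equiv.ext
  intro x
  obtain ⟨h0, h1, h2⟩ := h x
  apply ext_tl
  · rw [h0, pr_zero]
  · rw [pr_tl]
    cases hx : x 0 with
    | false => simpa using h1 hx
    | true => simpa using h2 hx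

theorem a_zero (a : PE) (ha : ∀ x : ℕ → Bool, a x = Function.update x 0 (!(x 0))) (x : ℕ → Bool) :
    a x 0 = !(x 0) := by
  rw [ha]; simp

theorem a_tl (a : PE) (ha : ∀ x : ℕ → Bool, a x = Function.update x 0 (!(x 0))) (x : ℕ → Bool) :
    tl (a x) = tl x := by
  funext m
  simp [tl, ha]

theorem a_sq (a : PE) (ha : ∀ x : ℕ → Bool, a x = Function.update x 0 (!(x 0))) : a * a = 1 := by
  apply Equiv.ext
  intro x
  rw [Equiv.Perm.mul_apply]
  apply ext_tl
  · simp [a_zero a ha]
  · simp [a_tl a ha]

theorem a_conj (a : PE) (ha : ∀ x : ℕ → Bool, a x = Function.update x 0 (!(x 0))) (u v : PE) :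
    a * pr u v * a = pr v u := by
  apply Equiv.ext
  intro x
  simp only [Equiv.Perm.mul_apply]
  apply ext_tl
  · simp [a_zero a ha, pr_zero]
  · rw [a_tl a ha, pr_tl, pr_tl, a_zero a ha, a_tl a ha]
    cases hx : x 0 <;> simp

/-- The relations of the Grigorchuk group that we need. -/
theorem relations (a b c d : PE) (ha : ∀ x : ℕ → Bool, a x = Function.update x 0 (!(x 0)))
    (hb : b = pr a c) (hc : c = pr a d) (hd : d = pr 1 b) :
    b * b = 1 ∧ c * c = 1 ∧ d * d = 1 ∧ b * c = d := by
  have ha2 := a_sq a ha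
  have hbb : b * b = pr 1 (c * c) := by
    conv_lhs => rw [hb]
    rw [pr_mul, ha2]
  have hcc : c * c = pr 1 (d * d) := by
    conv_lhs => rw [hc]
    rw [pr_mul, ha2]
  have hdd : d * d = pr 1 (b * b) := by
    conv_lhs => rw [hd]
    rw [pr_mul, one_mul]
  have hbc : b * c = pr 1 (c * d) := by
    conv_lhs => rw [hb, hc]
    rw [pr_mul, ha2, ← hc]
  have hcd : c * d = pr a (d * b) := by
    conv_lhs => rw [hc, hd]
    rw [pr_mul, mul_one, ← hd]
  have hdb : d * b = pr a (b * c) := by
    conv_lhs => rw [hd, hb]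
    rw [pr_mul, one_mul, ← hb]
  have key : ∀ n : ℕ, ∀ x : ℕ → Bool, (b * b) x n = x n ∧ (c * c) x n = x n ∧ (d * d) x n = x n ∧
      (b * c) x n = d x n ∧ (c * d) x n = b x n ∧ (d * b) x n = c x n := by
    intro n
    induction n with
    | zero =>
      intro x
      rw [hbb, hcc, hdd, hbc, hcd, hdb]
      refine ⟨rfl, rfl, rfl, ?_, ?_, ?_⟩
      · rw [hd]; rfl
      · rw [hb]; rfl
      · rw [hc]; rfl
    | succ n ih =>
      intro x
      have step : ∀ u v : PE, pr u v x (n + 1) = (if x 0 = true then v (tl x) else u (tl x)) n := by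
        intro u v; rfl
      obtain ⟨i1, i2, i3, i4, i5, i6⟩ := ih (tl x)
      refine ⟨?_, ?_, ?_, ?_, ?_, ?_⟩
      · rw [hbb, step]; split_ifs
        · rw [i2]; rfl
        · rfl
      · rw [hcc, step]; split_ifs
        · rw [i3]; rfl
        · rfl
      · rw [hdd, step]; split_ifs
        · rw [i1]; rfl
        · rfl
      · rw [hbc, step]
        conv_rhs => rw [hd, step]
        split_ifs
        · exact i5
        · rfl
      · rw [hcd, step]
        conv_rhs => rw [hb, step]
        split_ifs
        · exact i6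
        · rfl
      · rw [hdb, step]
        conv_rhs => rw [hc, step]
        split_ifs
        · exact i4
        · rfl
  refine ⟨?_, ?_, ?_, ?_⟩
  · apply Equiv.ext; intro x; funext n; exact (key n x).1
  · apply Equiv.ext; intro x; funext n; exact (key n x).2.1
  · apply Equiv.ext; intro x; funext n; exact (key n x).2.2.1
  · apply Equiv.ext; intro x; funext n; exact (key n x).2.2.2.1

theorem countable_closure {G : Type} [Group G] (s : Set G) (hs : s.Finite) :
    Countable (Subgroup.closure s) := by
  have h0 : Countable s := hs.countable.to_subtype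
  have h1 : Countable (FreeGroup s) := by
    have : Function.Surjective (FreeGroup.mk : List (s × Bool) → FreeGroup s) := Quot.mk_surjective
    exact this.countable
  have h2 : Countable (FreeGroup.lift ((↑) : s → G)).range := by
    have : Function.Surjective (FreeGroup.lift ((↑) : s → G)).rangeRestrict :=
      MonoidHom.rangeRestrict_surjective _
    exact this.countable
  rwa [FreeGroup.closure_eq_range]

/-- Every element of the group is a second coordinate of an element of the group. -/
theorem exists_left (a b c d : PE) (ha : ∀ x : ℕ → Bool, a x = Function.update x 0 (!(x 0)))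
    (hb : b = pr a c) (hc : c = pr a d) (hd : d = pr 1 b) (g : PE)
    (hg : g ∈ Subgroup.closure ({a, b, c, d} : Set PE)) :
    ∃ u, pr u g ∈ Subgroup.closure ({a, b, c, d} : Set PE) := by
  have mem_a : a ∈ Subgroup.closure ({a, b, c, d} : Set PE) := subset_closure (by simp)
  have mem_b : b ∈ Subgroup.closure ({a, b, c, d} : Set PE) := subset_closure (by simp)
  have mem_c : c ∈ Subgroup.closure ({a, b, c, d} : Set PE) := subset_closure (by simp)
  have mem_d : d ∈ Subgroup.closure ({a, b, c, d} : Set PE) := subset_closure (by simp)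
  induction hg using Subgroup.closure_induction with
  | mem x hx =>
    rcases hx with rfl | rfl | rfl | rfl
    · refine ⟨c, ?_⟩
      rw [← a_conj x ha x c, ← hb]
      exact mul_mem (mul_mem mem_a mem_b) mem_a
    · exact ⟨1, by rw [← hd]; exact mem_d⟩
    · exact ⟨a, by rw [← hb]; exact mem_b⟩
    · exact ⟨a, by rw [← hc]; exact mem_c⟩
  | one => exact ⟨1, by rw [pr_one]; exact one_mem _⟩
  | mul x y _ _ hx hy =>
    obtain ⟨u, hu⟩ := hx
    obtain ⟨v, hv⟩ := hy
    exact ⟨u * v, by rw [← pr_mul]; exact mul_mem hu hv⟩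
  | inv x _ hx =>
    obtain ⟨u, hu⟩ := hx
    exact ⟨u⁻¹, by rw [← pr_inv]; exact inv_mem hu⟩

end Pool.Agent.H6.HF
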