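import Pool.Agent.H6.HF.Grig

set_option autoImplicit false

namespace Pool.Agent.H6.HF

open Subgroup

/-- second coordinate embedding -/
def prR : PE →* PE where
  toFun v := pr 1 v
  map_one' := pr_one
  map_mul' u v := by rw [pr_mul, one_mul]

theorem prR_apply (v : PE) : prR v = pr 1 v := rfl

/-- elements of the dihedral group of order at most 8 -/
def dih {Q : Type} [Group Q] (α δ : Q) : Set Q :=
  {1, α, δ, α * δ, δ * α, α * δ * α, δ * α * δ, α * δ * α * δ}

theorem dih_finite {Q : Type} [Group Q] (α δ : Q) : (dih α δ).Finite := by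
  unfold dih
  exact Set.toFinite _

theorem dih_left {Q : Type} [Group Q] (α δ : Q) (hα : α * α = 1) (hδ : δ * δ = 1)
    (h4 : (α * δ * α * δ) * (α * δ * α * δ) = 1) {x : Q} (hx : x ∈ dih α δ) :
    α * x ∈ dih α δ ∧ δ * x ∈ dih α δ := by
  have hα' : ∀ y, α * (α * y) = y := fun y => by rw [← mul_assoc, hα, one_mul]
  have hδ' : ∀ y, δ * (δ * y) = y := fun y => by rw [← mul_assoc, hδ, one_mul]
  have h5 : δ * α * δ * α = α * δ * α * δ := by
    have e1 : (α * δ * α * δ) * (δ * α * δ * α) = 1 := by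
      simp only [mul_assoc, hα', hδ', hα]
    have e2 := eq_inv_of_mul_eq_one_right e1
    have e3 := eq_inv_of_mul_eq_one_right h4
    rw [e2, ← e3]
  simp only [dih, Set.mem_insert_iff, Set.mem_singleton_iff] at hx ⊢
  rcases hx with rfl | rfl | rfl | rfl | rfl | rfl | rfl | rfl
  · simp
  · refine ⟨?_, ?_⟩
    · simp [hα]
    · simp
  · refine ⟨?_, ?_⟩
    · simp
    · simp [hδ]
  · refine ⟨?_, ?_⟩
    · right; right; left; simp only [hα', mul_assoc]
    · right; right; right; right; right; right; left; simp only [mul_assoc]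
  · refine ⟨?_, ?_⟩
    · right; right; right; right; right; left; simp only [mul_assoc]
    · right; left; simp only [hδ', mul_assoc]
  · refine ⟨?_, ?_⟩
    · right; right; right; right; left; simp only [hα', mul_assoc]
    · right; right; right; right; right; right; right; rw [← h5]; simp only [mul_assoc]
  · refine ⟨?_, ?_⟩
    · right; right; right; right; right; right; right; simp only [mul_assoc]
    · right; right; right; left; simp only [hδ', mul_assoc]
  · refine ⟨?_, ?_⟩
    · right; right; right; right; right; right; left; simp only [hα', mul_assoc]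
    · right; right; right; right; right; left
      rw [← h5]; simp only [hδ', mul_assoc]

theorem grig_vemb (a b c d : PE) (ha : ∀ x : ℕ → Bool, a x = Function.update x 0 (!(x 0)))
    (hb : b = pr a c) (hc : c = pr a d) (hd : d = pr 1 b) :
    Infinite ↥(Subgroup.closure ({a, b, c, d} : Set PE)) ∧
    VEmb (↥(Subgroup.closure ({a, b, c, d} : Set PE)) × ↥(Subgroup.closure ({a, b, c, d} : Set PE)))
      ↥(Subgroup.closure ({a, b, c, d} : Set PE)) := by
  obtain ⟨hb2, hc2, hd2, hbc⟩ := relations a b c d ha hb hc hd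
  have ha2 := a_sq a ha
  have hex := exists_left a b c d ha hb hc hd
  have mem_a : a ∈ Subgroup.closure ({a, b, c, d} : Set PE) := subset_closure (by simp)
  have mem_b : b ∈ Subgroup.closure ({a, b, c, d} : Set PE) := subset_closure (by simp)
  have mem_c : c ∈ Subgroup.closure ({a, b, c, d} : Set PE) := subset_closure (by simp)
  have mem_d : d ∈ Subgroup.closure ({a, b, c, d} : Set PE) := subset_closure (by simp)
  let S := Subgroup.closure ({a, b, c, d} : Set PE)
  refine ⟨?_, ?_⟩
  · -- infinite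
    by_contra hcon
    rw [not_infinite_iff_finite] at hcon
    choose u hu using fun g : S => hex g g.2
    let σ : S → S := fun g => ⟨pr (u g) g, hu g⟩
    have hσ : Function.Injective σ := by
      intro g h hgh
      have := congrArg Subtype.val hgh
      exact Subtype.ext (pr_injective this).2
    have hsurj := Finite.injective_iff_surjective.mp hσ
    obtain ⟨g, hg⟩ := hsurj ⟨a, mem_a⟩
    have h1 : pr (u g) g = a := congrArg Subtype.val hg
    have h2 := a_zero a ha (fun _ => false)
    rw [← h1, pr_zero] at h2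
    simp at h2
  · -- the subgroup B
    let B : Subgroup S := (S.comap prR).subgroupOf S
    have hB : ∀ g : S, g ∈ B ↔ pr 1 (g : PE) ∈ S := by
      intro g
      simp [B, Subgroup.mem_subgroupOf, prR_apply]
    have hBn : B.Normal := by
      refine ⟨fun v hv g => ?_⟩
      rw [hB] at hv ⊢
      obtain ⟨u, hu⟩ := hex g g.2
      have : pr 1 ((g * v * g⁻¹ : S) : PE) = pr u g * pr 1 v * (pr u g)⁻¹ := by
        rw [pr_inv, pr_mul, pr_mul]
        simp
      rw [this]
      exact mul_mem (mul_mem hu hv) (inv_mem hu)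
    -- finite index
    have hq : ∀ x (hx : x ∈ Subgroup.closure ({a, b, c, d} : Set PE)),
        (((⟨x, hx⟩ : S) : S ⧸ B)) ∈ dih (((⟨a, mem_a⟩ : S) : S ⧸ B)) (((⟨d, mem_d⟩ : S) : S ⧸ B)) := by
      have e_b : (((⟨b, mem_b⟩ : S) : S ⧸ B)) = 1 := by
        rw [QuotientGroup.eq_one_iff, hB]
        show pr 1 b ∈ S
        rw [← hd]; exact mem_d
      have e_c : (((⟨c, mem_c⟩ : S) : S ⧸ B)) = (((⟨d, mem_d⟩ : S) : S ⧸ B)) := by
        have h1 : (⟨b, mem_b⟩ : S) * ⟨c, mem_c⟩ = ⟨d, mem_d⟩ := Subtype.ext hbc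
        rw [← h1, QuotientGroup.mk_mul, e_b, one_mul]
      have e_a2 : (((⟨a, mem_a⟩ : S) : S ⧸ B)) * (((⟨a, mem_a⟩ : S) : S ⧸ B)) = 1 := by
        have h1 : (⟨a, mem_a⟩ : S) * ⟨a, mem_a⟩ = 1 := Subtype.ext ha2
        rw [← QuotientGroup.mk_mul, h1, QuotientGroup.mk_one]
      have e_d2 : (((⟨d, mem_d⟩ : S) : S ⧸ B)) * (((⟨d, mem_d⟩ : S) : S ⧸ B)) = 1 := by
        have h1 : (⟨d, mem_d⟩ : S) * ⟨d, mem_d⟩ = 1 := Subtype.ext hd2
        rw [← QuotientGroup.mk_mul, h1, QuotientGroup.mk_one]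
      have hada : a * d * a * d = pr b b := by
        have : a * d * a = pr b 1 := by
          conv_lhs => rw [hd]
          rw [a_conj a ha]
        rw [this]
        conv_lhs => rw [hd]
        rw [pr_mul, mul_one, one_mul]
      have e_ad : ((((⟨a, mem_a⟩ : S) : S ⧸ B)) * (((⟨d, mem_d⟩ : S) : S ⧸ B)) * (((⟨a, mem_a⟩ : S) : S ⧸ B))
          * (((⟨d, mem_d⟩ : S) : S ⧸ B))) * ((((⟨a, mem_a⟩ : S) : S ⧸ B)) * (((⟨d, mem_d⟩ : S) : S ⧸ B)) *
          (((⟨a, mem_a⟩ : S) : S ⧸ B)) * (((⟨d, mem_d⟩ : S) : S ⧸ B))) = 1 := by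
        have h1 : ((⟨a, mem_a⟩ : S) * ⟨d, mem_d⟩ * ⟨a, mem_a⟩ * ⟨d, mem_d⟩) *
            (⟨a, mem_a⟩ * ⟨d, mem_d⟩ * ⟨a, mem_a⟩ * ⟨d, mem_d⟩) = 1 := by
          apply Subtype.ext
          show (a * d * a * d) * (a * d * a * d) = 1
          rw [hada, pr_mul, hb2, pr_one]
        have h2 := congrArg (fun z : S => (z : S ⧸ B)) h1
        simpa only [QuotientGroup.mk_mul, QuotientGroup.mk_one] using h2
      intro x hx
      induction hx using Subgroup.closure_induction_left with
      | one => left; rfl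
      | mul_left x hx y hy ih =>
        have hmul : (((⟨x * y, mul_mem (subset_closure hx) hy⟩ : S) : S ⧸ B)) =
            (((⟨x, subset_closure hx⟩ : S) : S ⧸ B)) * (((⟨y, hy⟩ : S) : S ⧸ B)) := rfl
        rw [hmul]
        rcases hx with rfl | rfl | rfl | rfl
        · exact (dih_left _ _ e_a2 e_d2 e_ad ih).1
        · rw [e_b, one_mul]; exact ih
        · rw [e_c]; exact (dih_left _ _ e_a2 e_d2 e_ad ih).2
        · exact (dih_left _ _ e_a2 e_d2 e_ad ih).2
      | inv_mul_cancel x hx y hy ih =>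
        have hmul : (((⟨x⁻¹ * y, mul_mem (inv_mem (subset_closure hx)) hy⟩ : S) : S ⧸ B)) =
            (((⟨x, subset_closure hx⟩ : S) : S ⧸ B))⁻¹ * (((⟨y, hy⟩ : S) : S ⧸ B)) := rfl
        rw [hmul]
        rcases hx with rfl | rfl | rfl | rfl
        · rw [inv_eq_of_mul_eq_one_left e_a2]; exact (dih_left _ _ e_a2 e_d2 e_ad ih).1
        · rw [e_b, inv_one, one_mul]; exact ih
        · rw [e_c, inv_eq_of_mul_eq_one_left e_d2]; exact (dih_left _ _ e_a2 e_d2 e_ad ih).2
        · rw [inv_eq_of_mul_eq_one_left e_d2]; exact (dih_left _ _ e_a2 e_d2 e_ad ih).2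
    have hfin : Finite (S ⧸ B) := by
      have huniv : (Set.univ : Set (S ⧸ B)).Finite := by
        refine (dih_finite (((⟨a, mem_a⟩ : S) : S ⧸ B)) (((⟨d, mem_d⟩ : S) : S ⧸ B))).subset ?_
        intro z _
        induction z using QuotientGroup.induction_on with
        | H z => exact hq z z.2
      exact Set.finite_univ_iff.mp huniv
    have hBf : B.FiniteIndex := finiteIndex_of_finite_quotient
    have hmem : ∀ x : B.prod B, pr ((x.1.1 : S) : PE) ((x.1.2 : S) : PE) ∈ S := by
      rintro ⟨⟨u, v⟩, hx⟩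
      obtain ⟨hu, hv⟩ := Subgroup.mem_prod.mp hx
      rw [hB] at hu hv
      show pr (u : PE) (v : PE) ∈ S
      have h1 : pr (u : PE) (v : PE) = (a * pr 1 u * a) * pr 1 v := by
        rw [a_conj a ha, pr_mul]; simp
      rw [h1]
      exact mul_mem (mul_mem (mul_mem mem_a hu) mem_a) hv
    refine ⟨B.prod B,
      { toFun := fun x => ⟨pr ((x.1.1 : S) : PE) ((x.1.2 : S) : PE), hmem x⟩
        map_one' := Subtype.ext pr_one
        map_mul' := fun x y => Subtype.ext (pr_mul _ _ _ _).symm },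
      ⟨by rw [Subgroup.index_prod]; exact mul_ne_zero hBf.index_ne_zero hBf.index_ne_zero⟩, ?_⟩
    intro x y hxy
    have h1 := pr_injective (congrArg Subtype.val hxy)
    exact Subtype.ext (Prod.ext (Subtype.ext h1.1) (Subtype.ext h1.2))

end Pool.Agent.H6.HF
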