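import Pool.Agent.H6.HF.Coding

set_option autoImplicit false

namespace Pool.Agent.H6.HF

/-- A subgroup of finite index of `Γ` embeds into `Δ`. -/
def VEmb (Γ Δ : Type) [Group Γ] [Group Δ] : Prop :=
  ∃ (N : Subgroup Γ) (f : N →* Δ), N.FiniteIndex ∧ Function.Injective f

theorem finiteIndex_comap {Γ Δ : Type} [Group Γ] [Group Δ] (f : Γ →* Δ) (S : Subgroup Δ)
    (hS : S.FiniteIndex) : (S.comap f).FiniteIndex := by
  have h : S.relIndex f.range ≠ 0 := by
    have := (inferInstance : (S.subgroupOf f.range).FiniteIndex)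
    exact this.index_ne_zero
  exact ⟨by rw [Subgroup.index_comap]; exact h⟩

theorem VEmb.of_injective {Γ Δ : Type} [Group Γ] [Group Δ] (f : Γ →* Δ)
    (hf : Function.Injective f) : VEmb Γ Δ :=
  ⟨⊤, f.comp (⊤ : Subgroup Γ).subtype, inferInstance, hf.comp Subtype.val_injective⟩

theorem VEmb.refl (Γ : Type) [Group Γ] : VEmb Γ Γ :=
  VEmb.of_injective (MonoidHom.id Γ) Function.injective_id

theorem VEmb.trans {Γ Δ Λ : Type} [Group Γ] [Group Δ] [Group Λ] (h1 : VEmb Γ Δ) (h2 : VEmb Δ Λ) :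
    VEmb Γ Λ := by
  obtain ⟨N, f, hN, hf⟩ := h1
  obtain ⟨K, g, hK, hg⟩ := h2
  have hc : (K.comap f).FiniteIndex := finiteIndex_comap f K hK
  let S : Subgroup Γ := (K.comap f).map N.subtype
  have hS : S.FiniteIndex := by
    refine ⟨?_⟩
    rw [Subgroup.index_map, N.range_subtype]
    have hk : N.subtype.ker = ⊥ := by
      rw [MonoidHom.ker_eq_bot_iff]; exact Subtype.val_injective
    rw [hk, sup_bot_eq]
    exact mul_ne_zero hc.index_ne_zero hN.index_ne_zero
  have hSN : S ≤ N := by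
    rintro x ⟨y, _, rfl⟩
    exact y.2
  have hmem : ∀ x : S, f ⟨x, hSN x.2⟩ ∈ K := by
    rintro ⟨x, y, hy, rfl⟩
    exact hy
  let F : S →* Λ := g.comp
    { toFun := fun x => ⟨f ⟨x, hSN x.2⟩, hmem x⟩
      map_one' := by
        apply Subtype.ext
        exact map_one f
      map_mul' := fun x y => by
        apply Subtype.ext
        exact map_mul f ⟨x, hSN x.2⟩ ⟨y, hSN y.2⟩ }
  refine ⟨S, F, hS, ?_⟩
  intro x y hxy
  have h1 := hg hxy
  have h2 := hf (congrArg Subtype.val h1)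
  apply Subtype.ext
  have h3 := congrArg Subtype.val h2
  exact h3

theorem VEmb.prod {Γ Δ Γ' Δ' : Type} [Group Γ] [Group Δ] [Group Γ'] [Group Δ']
    (h1 : VEmb Γ Δ) (h2 : VEmb Γ' Δ') : VEmb (Γ × Γ') (Δ × Δ') := by
  obtain ⟨N, f, hN, hf⟩ := h1
  obtain ⟨K, g, hK, hg⟩ := h2
  refine ⟨N.prod K,
    { toFun := fun x => (f ⟨x.1.1, (Subgroup.mem_prod.mp x.2).1⟩, g ⟨x.1.2, (Subgroup.mem_prod.mp x.2).2⟩)
      map_one' := Prod.ext (map_one f) (map_one g)
      map_mul' := fun x y => Prod.ext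
        (map_mul f ⟨x.1.1, (Subgroup.mem_prod.mp x.2).1⟩ ⟨y.1.1, (Subgroup.mem_prod.mp y.2).1⟩)
        (map_mul g ⟨x.1.2, (Subgroup.mem_prod.mp x.2).2⟩ ⟨y.1.2, (Subgroup.mem_prod.mp y.2).2⟩) },
    ⟨by rw [Subgroup.index_prod]; exact mul_ne_zero hN.index_ne_zero hK.index_ne_zero⟩, ?_⟩
  rintro ⟨⟨x1, x2⟩, hx⟩ ⟨⟨y1, y2⟩, hy⟩ h
  have e1 := hf (congrArg Prod.fst h)
  have e2 := hg (congrArg Prod.snd h)
  apply Subtype.ext
  exact Prod.ext (congrArg Subtype.val e1) (congrArg Subtype.val e2)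

theorem VEmb.pow {G : Type} [Group G] (hGG : VEmb (G × G) G) (n : ℕ) : VEmb (Fin n → G) G := by
  induction n with
  | zero => exact VEmb.of_injective 1 (fun x y _ => Subsingleton.elim x y)
  | succ n ih =>
    have h1 : VEmb (Fin (n + 1) → G) (G × (Fin n → G)) := by
      refine VEmb.of_injective
        { toFun := fun x => (x 0, fun i => x i.succ)
          map_one' := rfl
          map_mul' := fun x y => rfl } ?_
      intro x y h
      funext i
      refine Fin.cases ?_ (fun k => ?_) i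
      · exact congrArg Prod.fst h
      · exact congrFun (congrArg Prod.snd h) k
    exact (h1.trans ((VEmb.refl G).prod ih)).trans hGG

theorem allHyp_of_shift {G : Type} [Group G] [Infinite G] (hGG : VEmb (G × G) G)
    (h : HypOrb (shiftAct G)) {Γ : Type} [Group Γ] (hΓ : VEmb Γ G) : AllHyp Γ := by
  have hV : VEmb (Γ × G) G := (hΓ.prod (VEmb.refl G)).trans hGG
  obtain ⟨S, f, hS, hf⟩ := hV
  have hM0 : (S.comap (MonoidHom.inl Γ G)).FiniteIndex := finiteIndex_comap _ S hS
  have hH : (S.comap (MonoidHom.inr Γ G)).FiniteIndex := finiteIndex_comap _ S hS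
  let M : Subgroup Γ := (S.comap (MonoidHom.inl Γ G)).normalCore
  let H : Subgroup G := S.comap (MonoidHom.inr Γ G)
  have hMle : M ≤ S.comap (MonoidHom.inl Γ G) := Subgroup.normalCore_le _
  have hmem : ∀ x : M × H, (((x.1 : Γ), (x.2 : G)) : Γ × G) ∈ S := by
    rintro ⟨⟨m, hm⟩, ⟨u, hu⟩⟩
    have h1 : ((m, 1) : Γ × G) ∈ S := hMle hm
    have h2 : ((1, u) : Γ × G) ∈ S := hu
    have h3 := S.mul_mem h1 h2
    simpa using h3
  let j : M × H →* G := f.comp
    { toFun := fun x => ⟨((x.1 : Γ), (x.2 : G)), hmem x⟩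
      map_one' := rfl
      map_mul' := fun x y => rfl }
  have hj : Function.Injective j := by
    intro x y hxy
    have h1 := congrArg Subtype.val (hf hxy)
    exact Prod.ext (Subtype.ext (congrArg Prod.fst h1)) (Subtype.ext (congrArg Prod.snd h1))
  have hHinf : Infinite H := by
    by_contra hcon
    rw [not_infinite_iff_finite] at hcon
    have : Finite G := (Subgroup.finite_iff_finite_and_finiteIndex (H := H)).mpr ⟨hcon, hH⟩
    exact not_finite G
  intro X _ _ φ hφ
  have hMi : M.FiniteIndex := inferInstance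
  have hMn : M.Normal := inferInstance
  exact HypOrb.of_normal φ hφ M
    (HypOrb.of_shift (φ.comp M.subtype) (fun g => hφ g) j hj h)

theorem tfae_general (G : Type) [Group G] [Countable G] [Infinite G] (hGG : VEmb (G × G) G) :
    List.TFAE [AllHyp G, HypOrb (shiftAct G),
      ∀ (Γ : Type) [Group Γ], (∃ n : ℕ, VEmb Γ (Fin n → G)) → AllHyp Γ] := by
  tfae_have 1 → 2 := fun h => h (G → Bool) (shiftAct G) measurable_shiftAct
  tfae_have 2 → 3 := by
    rintro h Γ _ ⟨n, hn⟩
    exact allHyp_of_shift hGG h (hn.trans (VEmb.pow hGG n))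
  tfae_have 3 → 1 := by
    intro h
    refine h G ⟨1, VEmb.of_injective
      { toFun := fun x _ => x
        map_one' := rfl
        map_mul' := fun x y => rfl } ?_⟩
    intro x y hxy
    exact congrFun hxy 0
  tfae_finish

end Pool.Agent.H6.HF
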